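import Mathlib
import Pool.Agent.H176R.Fin
import Pool.Agent.H447R2.ML.Spec

set_option autoImplicit false

/-!
# Primes in the real solutions of the Fibonacci recurrence: independence of the earlier indices

The real solutions of `T (n + 2) = T (n + 1) + T n` are the sequences
`T β B n = β φ ^ n + B ψ ^ n` with `φ = (1 + √5) / 2`, `ψ = (1 - √5) / 2`; the Fibonacci numbers are
the solution with `β = 1 / √5`, `B = -1 / √5`, the Lucas numbers the one with `β = B = 1`.  For a
prime `p` let `W β B p` be the `p`-rough part (the product, with multiplicity, of the prime factors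
larger than `p`) of `⌊|T β B p|⌋`.  For the Fibonacci and the Lucas numbers this is the number with the
index `p` itself, for all primes `p > 5`.  The indices of `(β, B)` are the primes `p` with `W β B p`
prime; `E β B x y` is the set of the indices in `(x, y]`, `N A β B` the number of the indices in the
finite set `A`, and `v A` the sum of `log p / p` over `A`.  Let `c = e ^ γ / log φ`.

We prove that, in the mean over `log β`, the numbers of the indices in arbitrary sets `A 0, …, A (k-1)`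
of primes in windows `(a i z, b i z]` are asymptotically independent of each other and of the whole
set of the indices up to `ρ z`, with means `c v (A i)`, as soon as the windows are separated from each
other and from `ρ z` by a factor above `3/2`; uniformly in the sets and in the events, with a saving
of an arbitrary power of `z` for rare events.  The sets may consist of one prime each.
-/

namespace Pool.Agent.Results.MP_5893d7_nt.EarlierIndices

open Filter Topology MeasureTheory

/-- The Lucas numbers. -/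
def L : ℕ → ℕ
  | 0 => 2
  | 1 => 1
  | (n + 2) => L (n + 1) + L n

/-- The golden ratio. -/
noncomputable def φ : ℝ := (1 + Real.sqrt 5) / 2

/-- The conjugate of the golden ratio. -/
noncomputable def ψ : ℝ := (1 - Real.sqrt 5) / 2

/-- The real solutions of the Fibonacci recurrence. -/
noncomputable def T (β B : ℝ) (n : ℕ) : ℝ := β * φ ^ n + B * ψ ^ n

/-- The product, with multiplicity, of the prime factors of `m` that are larger than `p`. -/
def roughPart (p m : ℕ) : ℕ := (m.primeFactorsList.filter (fun r => p < r)).prod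

/-- The `p`-rough part of `⌊|T β B p|⌋`. -/
noncomputable def W (β B : ℝ) (p : ℕ) : ℕ := roughPart p ⌊|T β B p|⌋₊

/-- The set of the primes `p` in `(x, y]` with `W β B p` prime. -/
noncomputable def E (β B x y : ℝ) : Finset ℕ :=
  (Finset.Ioc ⌊x⌋₊ ⌊y⌋₊).filter (fun p => p.Prime ∧ (W β B p).Prime)

/-- The number of `p` in the finite set `A` for which `W β B p` is prime. -/
noncomputable def N (A : Finset ℕ) (β B : ℝ) : ℕ := (A.filter (fun p => (W β B p).Prime)).card

/-- The sum of `log p / p` over `p` in the finite set `A`. -/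
noncomputable def v (A : Finset ℕ) : ℝ := ∑ p ∈ A, Real.log p / p

/-- The set of the primes in the interval `(x, y]`. -/
noncomputable def P (x y : ℝ) : Finset ℕ := (Finset.Ioc ⌊x⌋₊ ⌊y⌋₊).filter Nat.Prime

lemma sqrt5_sq : Real.sqrt 5 ^ 2 = 5 := Real.sq_sqrt (by norm_num)

lemma sqrt5_pos : 0 < Real.sqrt 5 := Real.sqrt_pos.2 (by norm_num)

lemma one_lt_phi : 1 < φ := by
  unfold φ
  nlinarith [sqrt5_sq, sqrt5_pos]

lemma phi_add : φ + ψ = ((1 : ℤ) : ℝ) := by unfold φ ψ; push_cast; ring

lemma phi_mul : φ * ψ = -1 := by unfold φ ψ; nlinarith [sqrt5_sq]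

lemma phi_sq : φ ^ 2 = φ + 1 := by unfold φ; nlinarith [sqrt5_sq]

lemma psi_sq : ψ ^ 2 = ψ + 1 := by unfold ψ; nlinarith [sqrt5_sq]

lemma T_rec (β B : ℝ) (n : ℕ) : T β B (n + 2) = T β B (n + 1) + T β B n := by
  unfold T
  rw [pow_add φ n 2, pow_add ψ n 2, phi_sq, psi_sq]
  ring

lemma T_zero (β B : ℝ) : T β B 0 = β + B := by unfold T; ring

lemma T_one (β B : ℝ) : T β B 1 = β * φ + B * ψ := by unfold T; ring

/-- the Fibonacci numbers -/
lemma T_fib (n : ℕ) : T (1 / Real.sqrt 5) (-(1 / Real.sqrt 5)) n = (Nat.fib n : ℝ) := by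
  induction n using Nat.twoStepInduction with
  | zero => rw [T_zero]; simp
  | one =>
    rw [T_one]
    have := sqrt5_pos.ne'
    unfold φ ψ
    rw [Nat.fib_one]
    field_simp
    push_cast
    ring
  | more n h1 h2 =>
    rw [T_rec, h1, h2, Nat.fib_add_two]
    push_cast
    ring

/-- the Lucas numbers -/
lemma T_luc (n : ℕ) : T 1 1 n = (L n : ℝ) := by
  induction n using Nat.twoStepInduction with
  | zero => rw [T_zero]; norm_num [L]
  | one =>
    rw [T_one, one_mul, one_mul, phi_add]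
    norm_num [L]
  | more n h1 h2 =>
    rw [T_rec, h1, h2]
    show _ = ((L (n + 1) + L n : ℕ) : ℝ)
    push_cast
    ring

lemma fib_eq (n : ℕ) : Pool.Agent.H447R2.ML.U 1 n = Nat.fib n := by
  induction n using Nat.twoStepInduction with
  | zero => rfl
  | one => rfl
  | more n h1 h2 =>
    rw [Pool.Agent.H447R2.ML.U_add_two, h1, h2, Nat.fib_add_two]
    ring

lemma luc_eq (n : ℕ) : Pool.Agent.H447R2.ML.V 1 n = L n := by
  induction n using Nat.twoStepInduction with
  | zero => rfl
  | one => rfl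
  | more n h1 h2 =>
    show _ = L (n + 1) + L n
    rw [Pool.Agent.H447R2.ML.V_add_two, h1, h2]
    ring

/-- The Fibonacci numbers. -/
lemma W_fib {p : ℕ} (hp : p.Prime) (h5 : 5 < p) :
    W (1 / Real.sqrt 5) (-(1 / Real.sqrt 5)) p = Nat.fib p := by
  have hd : ¬ p ∣ 1 ^ 2 + 4 := by
    intro h
    have := Nat.le_of_dvd (by norm_num) h
    omega
  have h := Pool.Agent.H447R2.ML.rough_U 1 one_pos hp (by omega) hd
    (x := T (1 / Real.sqrt 5) (-(1 / Real.sqrt 5)) p) (by rw [T_fib, fib_eq])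
  rw [fib_eq] at h
  have hT : |T (1 / Real.sqrt 5) (-(1 / Real.sqrt 5)) p| = T (1 / Real.sqrt 5) (-(1 / Real.sqrt 5)) p := by
    rw [T_fib]
    exact abs_of_nonneg (Nat.cast_nonneg _)
  unfold W
  rw [hT]
  exact h

/-- The Lucas numbers. -/
lemma W_luc {p : ℕ} (hp : p.Prime) (h5 : 5 < p) : W 1 1 p = L p := by
  have hd : ¬ p ∣ 1 := fun h => hp.one_lt.ne' (Nat.dvd_one.1 h)
  have h : Pool.Agent.H305R2.roughPart p ⌊T 1 1 p⌋₊ = L p := by
    rw [T_luc, Nat.floor_natCast]
    refine Pool.Agent.H447R2.ML.roughPart_eq_self ?_ fun q hq h => ?_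
    · rw [← luc_eq]
      exact (Pool.Agent.H447R2.ML.V_pos 1 p one_pos).ne'
    · rw [← luc_eq] at h
      exact Pool.Agent.H447R2.ML.lt_of_dvd_V 1 hp (by omega) hd hq
        (fun h' => hq.one_lt.ne' (Nat.dvd_one.1 h')) h
  have hT : |T 1 1 p| = T 1 1 p := by
    rw [T_luc]
    exact abs_of_nonneg (Nat.cast_nonneg _)
  unfold W
  rw [hT]
  exact h

lemma E_eq (β B x y : ℝ) : E β B x y = Pool.Agent.H176R.ER φ (fun p : ℕ => B * ψ ^ p) β x y := rfl

lemma N_eq (A : Finset ℕ) (β B : ℝ) : N A β B = Pool.Agent.H176R.NR φ (fun p : ℕ => B * ψ ^ p) A β := rfl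

/-- The Fibonacci and the Lucas numbers are two members of the family of the real solutions of the
Fibonacci recurrence; the joint correlations of distant indices and their independence of the earlier
indices; the joint correlations of distant windows. -/
theorem result :
    (∀ n : ℕ, T (1 / Real.sqrt 5) (-(1 / Real.sqrt 5)) n = Nat.fib n ∧ T 1 1 n = L n) ∧
    (∀ p : ℕ, p.Prime → 5 < p →
      W (1 / Real.sqrt 5) (-(1 / Real.sqrt 5)) p = Nat.fib p ∧ W 1 1 p = L p) ∧
    (∀ (B : ℝ) (k m : ℕ) (ρ : ℝ) (a b : ℕ → ℝ), 0 ≤ ρ → (∀ i < k, 0 < a i ∧ a i < b i) →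
      (∀ i j : ℕ, i < j → j < k → 3 / 2 * b i < a j) → (∀ i < k, 3 / 2 * ρ < a i) →
      ∀ s t : ℝ, s ≤ t → ∀ η : ℝ, 0 < η → ∀ᶠ z : ℝ in atTop,
      ∀ A : ℕ → Finset ℕ, (∀ i < k, ∀ p ∈ A i, p.Prime ∧ a i * z < p ∧ (p : ℝ) ≤ b i * z) →
      ∀ F : Finset ℕ → ℝ, (∀ S, |F S| ≤ 1) →
        |(∫ x in s..t, F (E (Real.exp x) B 0 (ρ * z)) *
            ∏ i ∈ Finset.range k, (N (A i) (Real.exp x) B : ℝ)) -
          (∏ i ∈ Finset.range k, Real.exp Real.eulerMascheroniConstant / Real.log φ * v (A i)) *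
            ∫ x in s..t, F (E (Real.exp x) B 0 (ρ * z))| ≤
        η * (∏ i ∈ Finset.range k, v (A i)) *
          ((∫ x in s..t, |F (E (Real.exp x) B 0 (ρ * z))|) + 1 / z ^ m)) ∧
    (∀ (B : ℝ) (k : ℕ) (a b : ℕ → ℝ), (∀ i < k, 0 < a i ∧ a i < b i) →
      (∀ i j : ℕ, i < j → j < k → 3 / 2 * b i < a j) → ∀ s t : ℝ, s ≤ t →
      Tendsto (fun z : ℝ => ∫ x in s..t,
        ∏ i ∈ Finset.range k, (N (P (a i * z) (b i * z)) (Real.exp x) B : ℝ)) atTop
        (𝓝 ((t - s) * ∏ i ∈ Finset.range k,
          Real.exp Real.eulerMascheroniConstant / Real.log φ * Real.log (b i / a i)))) := by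
  refine ⟨fun n => ⟨T_fib n, T_luc n⟩, fun p hp h5 => ⟨W_fib hp h5, W_luc hp h5⟩,
    fun B k m ρ a b hρ h0 h1 h2 s t hst η hη => ?_, fun B k a b h0 h1 s t hst => ?_⟩
  · obtain ⟨hg, hnear⟩ := Pool.Agent.H176R.near_unit one_lt_phi phi_add phi_mul B
    exact Pool.Agent.H176R.joint_rb one_lt_phi zero_le_one one_lt_phi hg hnear k m ρ a b hρ h0 h1 h2 s t hst η hη
  · obtain ⟨hg, hnear⟩ := Pool.Agent.H176R.near_unit one_lt_phi phi_add phi_mul B
    exact Pool.Agent.H176R.mean_rb one_lt_phi zero_le_one one_lt_phi hg hnear k a b h0 h1 s t hst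

end Pool.Agent.Results.MP_5893d7_nt.EarlierIndices
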